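import Pool.Agent.Lib.MP_226ef1_lc.U.H65.Vert2

/-! Project INCL, module RUNNET. -/

set_option autoImplicit false

open Relation

namespace Pool.Agent.Lib.MP_226ef1_lc.U.H65

/-- the action `act` on one stack -/
def Act (act : ℕ) (l l' : List ℕ) : Prop :=
  (act ≤ 1 ∧ l' = l) ∨ (2 ≤ act ∧ act ≤ 5 ∧ l' = (act - 2) :: l) ∨
    (6 ≤ act ∧ act ≤ 9 ∧ l = (act - 6) :: l')

theorem opS_mod (o : ℕ) : opS (o % 4) = opS o := by
  unfold opS; ext; simp

theorem opS_inj {k k' : ℕ} (hk : k < 4) (hk' : k' < 4) (h : opS k = opS k') : k = k' := by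
  unfold opS at h
  have := congrArg Fin.val h
  simp only at this
  omega

theorem opRel_cell {o : ℕ} {S S' : Stks} (h : OpRel o S S') {k : ℕ} (hk : k < 4) :
    (k = o % 4 → Act (o / 4) (S (opS k)) (S' (opS k))) ∧
      (k ≠ o % 4 → S' (opS k) = S (opS k)) := by
  have hne : k ≠ o % 4 → opS k ≠ opS o := by
    intro h1 h2
    rw [← opS_mod o] at h2
    exact h1 (opS_inj hk (Nat.mod_lt _ (by decide)) h2)
  have heq : k = o % 4 → opS k = opS o := by
    intro h1
    rw [h1, opS_mod]
  rcases h with ⟨h1, h2⟩ | ⟨h1, h2, h3⟩ | ⟨h1, h2, h3⟩ | ⟨h1, h2, h3⟩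
  · exact ⟨fun _ => Or.inl ⟨by omega, by rw [h2]⟩, fun _ => by rw [h2]⟩
  · exact ⟨fun _ => Or.inl ⟨by omega, by rw [h3]⟩, fun _ => by rw [h3]⟩
  · refine ⟨fun hk' => Or.inr (Or.inl ⟨h1, h2, ?_⟩), fun hk' => ?_⟩
    · rw [heq hk', h3, Function.update_self]
    · rw [h3, Function.update_of_ne (hne hk')]
  · refine ⟨fun hk' => Or.inr (Or.inr ⟨h1, h2, ?_⟩), fun hk' => ?_⟩
    · rw [heq hk', h3, Function.update_self]
    · rw [h3, Function.update_of_ne (hne hk')]

theorem opRel_test {o : ℕ} {S S' : Stks} (h : OpRel o S S') (ho : o / 4 = 1) : S (opS o) = [] := by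
  rcases h with ⟨h1, h2⟩ | ⟨h1, h2, h3⟩ | ⟨h1, h2, h3⟩ | ⟨h1, h2, h3⟩
  · omega
  · exact h2
  · omega
  · omega

/-- the sequence of configurations of a halting computation -/
theorem exists_seq {R : List (ℕ × ℕ × ℕ)} {a b : ℕ × Stks} (hb : MStep R b b)
    (h : ReflTransGen (MStep R) a b) : ∃ (n : ℕ) (c : ℕ → ℕ × Stks), c 0 = a ∧
      (∀ t, n ≤ t → c t = b) ∧ ∀ t, MStep R (c t) (c (t + 1)) := by
  induction h using ReflTransGen.head_induction_on with
  | refl => exact ⟨0, fun _ => b, rfl, fun _ _ => rfl, fun _ => hb⟩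
  | @head a a' h1 _ ih =>
    obtain ⟨n, c, hc0, hcn, hc⟩ := ih
    refine ⟨n + 1, fun t => Nat.casesOn t a c, rfl, fun t ht => ?_, fun t => ?_⟩
    · rcases t with _ | t
      · omega
      · exact hcn t (by omega)
    · rcases t with _ | t
      · show MStep R a (c 0)
        rw [hc0]; exact h1
      · exact hc t

/-- the rule used in a step -/
theorem exists_rule {R : List (ℕ × ℕ × ℕ)} {c c' : ℕ × Stks} (h : MStep R c c') :
    ∃ i, i < R.length ∧ (rul R i).1 = c.1 ∧ (rul R i).2.2 = c'.1 ∧ OpRel (rul R i).2.1 c.2 c'.2 := by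
  obtain ⟨r, hr, h1, h2, h3⟩ := h
  obtain ⟨i, hi, rfl⟩ := List.getElem_of_mem hr
  refine ⟨i, hi, ?_⟩
  unfold rul
  rw [List.getD_eq_getElem _ _ hi]
  exact ⟨h1, h2, h3⟩

/-! ### the entries -/

/-- order of two numbers -/
def ord (x y : ℕ) : ℕ := if x < y then 0 else if x = y then 1 else 2

theorem ord_zero {x y : ℕ} : ord x y = 0 ↔ x < y := by
  unfold ord; split_ifs <;> simp_all

theorem ord_one {x y : ℕ} : ord x y = 1 ↔ x = y := by
  unfold ord; split_ifs <;> simp_all; omega

theorem ord_two {x y : ℕ} : ord x y = 2 ↔ y < x := by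
  unfold ord; split_ifs <;> simp_all <;> omega

theorem ord_lt (x y : ℕ) : ord x y < 3 := by
  unfold ord; split_ifs <;> omega

/-- the entry -/
def ent (m : ℕ) (r : ℕ → ℕ) (s : ℕ → ℕ → List ℕ) (x y : ℕ) : ℕ :=
  mkE (ord x y) (if y = (x + 1) % m then 1 else 0) (r x) (cellOf (s x 0) y) (cellOf (s x 1) y)
    (cellOf (s x 2) y) (cellOf (s x 3) y)

variable {m : ℕ} {r : ℕ → ℕ} {s : ℕ → ℕ → List ℕ}

theorem eo_ent (x y : ℕ) : eo (ent m r s x y) = ord x y := by
  unfold eo ent mkE; simp

theorem es_ent (x y : ℕ) : es (ent m r s x y) = if y = (x + 1) % m then 1 else 0 := by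
  unfold es ent mkE; simp

theorem es_ent_one {x y : ℕ} : es (ent m r s x y) = 1 ↔ y = (x + 1) % m := by
  rw [es_ent]; split_ifs with h <;> simp [h]

theorem er_ent (x y : ℕ) : er (ent m r s x y) = r x := by
  unfold er ent mkE; simp

theorem ec_ent {k : ℕ} (hk : k < 4) (x y : ℕ) : ec k (ent m r s x y) = cellOf (s x k) y := by
  unfold ec ent mkE
  interval_cases k <;> simp

theorem runnet : RunNetStatement := by
  intro qs qh R hidle hhalt
  obtain ⟨S, hS⟩ := hhalt
  have hb : MStep R (qh, S) (qh, S) := ⟨_, hidle, rfl, rfl, Or.inl ⟨by norm_num, rfl⟩⟩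
  obtain ⟨n, c, hc0, hcn, hc⟩ := exists_seq hb hS
  choose r hr1 hr2 hr3 hr4 using fun t => exists_rule (hc t)
  -- stacks
  let s : ℕ → ℕ → List ℕ := fun t k => (c t).2 (opS k)
  have hs : ∀ t k, s t k = (c t).2 (opS k) := fun _ _ => rfl
  have hs0 : ∀ k, s 0 k = [] := by
    intro k; rw [hs, hc0]
  have hstep : ∀ t k, k < 4 → (k = (rul R (r t)).2.1 % 4 →
      Act ((rul R (r t)).2.1 / 4) (s t k) (s (t + 1) k)) ∧
      (k ≠ (rul R (r t)).2.1 % 4 → s (t + 1) k = s t k) := fun t k hk => opRel_cell (hr4 t) hk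
  have hinv : ∀ t k, k < 4 → (∀ a ∈ s t k, a < 4) ∧ (s t k).length ≤ t := by
    intro t
    induction t with
    | zero =>
      intro k hk
      rw [hs0]
      simp
    | succ t ih =>
      intro k hk
      obtain ⟨i1, i2⟩ := ih k hk
      by_cases hk' : k = (rul R (r t)).2.1 % 4
      · rcases (hstep t k hk).1 hk' with ⟨_, h2⟩ | ⟨h1, h2, h3⟩ | ⟨h1, h2, h3⟩
        · rw [h2]; exact ⟨i1, by omega⟩
        · rw [h3]
          refine ⟨fun a ha => ?_, by simp; omega⟩
          rcases List.mem_cons.1 ha with rfl | ha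
          · omega
          · exact i1 a ha
        · rw [h3] at i1 i2
          refine ⟨fun a ha => i1 a (List.mem_cons_of_mem _ ha), ?_⟩
          rw [List.length_cons] at i2
          omega
      · rw [(hstep t k hk).2 hk']
        exact ⟨i1, by omega⟩
  refine ⟨n + 3, fun m hm => ⟨fun x y => ent m r s x.val y.val, ?_, fun x y => es_ent_one⟩⟩
  refine ⟨fun x y => ?_, fun x y => ?_, fun x y hxy => ?_, fun x y z => ?_, fun x => ?_⟩
  · -- valid entries
    refine ⟨by rw [eo_ent]; exact ord_lt _ _, by rw [es_ent]; split_ifs <;> omega,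
      by rw [er_ent]; exact hr1 _, fun k hk => ?_⟩
    rw [ec_ent hk]
    exact cellOf_lt_six (hinv _ k hk).1 _
  · rw [eo_ent, ord_one]
    exact Fin.val_inj
  · rw [es_ent_one, es_ent_one]
    rintro ⟨h1, h2⟩
    have hx := x.isLt
    have hy := y.isLt
    rcases Nat.lt_or_ge (x.val + 1) m with h3 | h3
    · rw [Nat.mod_eq_of_lt h3] at h1
      rcases Nat.lt_or_ge (y.val + 1) m with h4 | h4
      · rw [Nat.mod_eq_of_lt h4] at h2; omega
      · have : y.val + 1 = m := by omega
        rw [this, Nat.mod_self] at h2; omega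
    · have : x.val + 1 = m := by omega
      rw [this, Nat.mod_self] at h1
      rw [h1, zero_add, Nat.mod_eq_of_lt (by omega)] at h2
      omega
  · have hx := x.isLt
    have hy := y.isLt
    have hz := z.isLt
    -- the successor relation
    have succ : ∀ a b : ℕ, a < m → (b = (a + 1) % m ↔ (a + 1 < m ∧ b = a + 1) ∨ (a + 1 = m ∧ b = 0)) := by
      intro a b ha
      rcases Nat.lt_or_ge (a + 1) m with h3 | h3
      · rw [Nat.mod_eq_of_lt h3]; omega
      · have : a + 1 = m := by omega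
        rw [this, Nat.mod_self]; omega
    refine ⟨?_, ?_, ?_, ?_, ?_, ?_, ?_⟩
    · unfold K1
      simp only [eo_ent]
      refine ⟨fun h1 h2 => ?_, fun h1 h2 => ?_, fun h1 => ?_, fun h1 => ?_⟩
      · rw [ord_zero] at *; omega
      · rw [ord_two] at *; omega
      · rw [ord_one] at h1; rw [h1]
      · rw [ord_one] at h1; rw [h1]
    · unfold K2
      simp only [eo_ent, es_ent_one, succ x.val z.val hx, ne_eq, ord_zero, ord_one, ord_two]
      omega
    · rw [er_ent, er_ent]
    · intro h1 h2 k hk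
      rw [es_ent_one, succ y.val z.val hy] at h1
      rw [eo_ent, ord_zero] at h2
      rw [ec_ent hk, ec_ent hk]
      have : z.val = y.val + 1 := by omega
      rw [this]
      exact cellOf_hcell _ _
    · intro h1 h2
      rw [es_ent_one, succ y.val z.val hy] at h1
      rw [eo_ent, ord_two] at h2
      have h3 : z.val = 0 := by omega
      have h4 : y.val + 1 = m := by omega
      refine ⟨fun k hk => ?_, fun ho => ?_⟩
      · rw [ec_ent hk, ec_ent hk, h3]
        have h5 := (hinv x.val k hk).2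
        have h6 := cellOf_ge (l := s x.val k) (i := y.val) (by omega)
        have h7 := cellOf_pos (l := s x.val k) (Nat.zero_le _)
        omega
      · rw [er_ent] at ho ⊢
        rw [ec_ent (Nat.mod_lt _ (by decide)), h3]
        have h5 := opRel_test (hr4 x.val) ho
        have h6 : s x.val ((rul R (r x.val)).2.1 % 4) = [] := by
          rw [hs, opS_mod]; exact h5
        rw [h6]
        exact cellOf_eq []
    · intro h1 h2
      rw [es_ent_one, succ x.val y.val hx] at h1
      rw [eo_ent, ord_zero] at h2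
      have h3 : y.val = x.val + 1 := by omega
      rw [er_ent, er_ent, h3]
      refine ⟨by rw [hr3, hr2], fun k hk => ⟨fun hk' => ?_, fun hk' => ?_⟩⟩
      · rw [ec_ent hk, ec_ent hk]
        have h4 := (hstep x.val k hk).1 hk'
        exact (vert2 _ _ _ (hinv x.val k hk).1 (hinv (x.val + 1) k hk).1 h4).1 z.val
      · rw [ec_ent hk, ec_ent hk, (hstep x.val k hk).2 hk']
    · intro h1 h2
      rw [es_ent_one, succ x.val y.val hx] at h1
      rw [eo_ent, ord_two] at h2
      have h3 : y.val = 0 := by omega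
      rw [er_ent, er_ent, h3]
      refine ⟨?_, ?_, fun k hk => ?_⟩
      · rw [hr2, hcn x.val (by omega)]
      · rw [hr2, hc0]
      · rw [ec_ent hk, hs0]
        have := cellOf_ge (l := []) (i := z.val) (Nat.zero_le _)
        omega
  · have hx := x.isLt
    refine ⟨⟨(x.val + 1) % m, Nat.mod_lt _ (by omega)⟩, ?_, ?_⟩
    · intro h
      have := congrArg Fin.val h
      simp only at this
      rcases Nat.lt_or_ge (x.val + 1) m with h3 | h3
      · rw [Nat.mod_eq_of_lt h3] at this; omega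
      · have h4 : x.val + 1 = m := by omega
        rw [h4, Nat.mod_self] at this; omega
    · exact es_ent_one.2 rfl

end Pool.Agent.Lib.MP_226ef1_lc.U.H65
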