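import Pool.Agent.Lib.MP_226ef1_lc.U.IfaceM

/-! Project INCL, module VERT2. -/

set_option autoImplicit false

namespace Pool.Agent.Lib.MP_226ef1_lc.U.H65

theorem cellOf_lt {l : List ℕ} {i : ℕ} (h : i < l.length) : 2 ≤ cellOf l i := by
  unfold cellOf; rw [if_pos h]; omega

theorem cellOf_eq (l : List ℕ) : cellOf l l.length = 1 := by
  unfold cellOf; rw [if_neg (lt_irrefl _), if_pos rfl]

theorem cellOf_gt {l : List ℕ} {i : ℕ} (h : l.length < i) : cellOf l i = 0 := by
  unfold cellOf; rw [if_neg (by omega), if_neg (by omega)]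

theorem cellOf_ge {l : List ℕ} {i : ℕ} (h : l.length ≤ i) : cellOf l i ≤ 1 := by
  rcases h.eq_or_lt with rfl | h
  · rw [cellOf_eq]
  · rw [cellOf_gt h]; omega

theorem cellOf_pos {l : List ℕ} {i : ℕ} (h : i ≤ l.length) : 1 ≤ cellOf l i := by
  rcases h.eq_or_lt with rfl | h
  · rw [cellOf_eq]
  · have := cellOf_lt h; omega

theorem cellOf_cons_lt {l : List ℕ} {i : ℕ} (a : ℕ) (h : i < l.length) :
    cellOf (a :: l) i = cellOf l i := by
  unfold cellOf
  rw [if_pos h, if_pos (by simp; omega), List.reverse_cons, List.getD_append _ _ _ _ (by simpa using h)]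

theorem cellOf_cons_eq (l : List ℕ) (a : ℕ) : cellOf (a :: l) l.length = 2 + a := by
  unfold cellOf
  rw [if_pos (by simp), List.reverse_cons, List.getD_append_right _ _ _ _ (by simp)]
  simp

theorem cellOf_lt_six {l : List ℕ} (h : ∀ a ∈ l, a < 4) (i : ℕ) : cellOf l i < 6 := by
  by_cases hi : i < l.length
  · unfold cellOf
    rw [if_pos hi]
    have h1 : i < l.reverse.length := by simpa using hi
    have h2 : l.reverse.getD i 0 ∈ l := by
      rw [List.getD_eq_getElem _ _ h1, ← List.mem_reverse]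
      exact List.getElem_mem h1
    have := h _ h2
    omega
  · have := cellOf_ge (not_lt.mp hi)
    omega

theorem cellOf_hcell (l : List ℕ) (i : ℕ) : hcell (cellOf l i) (cellOf l (i + 1)) := by
  by_cases hi : i < l.length
  · exact Or.inl ⟨cellOf_lt hi, cellOf_pos hi⟩
  · exact Or.inr ⟨cellOf_ge (not_lt.mp hi), cellOf_gt (by omega)⟩

theorem vert2 : Vert2Statement := by
  intro l l' act hl hl' h
  refine ⟨fun i => ?_, cellOf_lt_six hl, ?_, cellOf_hcell l⟩
  · rcases h with ⟨h1, rfl⟩ | ⟨h1, h2, rfl⟩ | ⟨h1, h2, rfl⟩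
    · exact Or.inl ⟨h1, rfl⟩
    · refine Or.inr (Or.inl ⟨h1, h2, ?_⟩)
      rcases lt_trichotomy i l.length with hi | rfl | hi
      · exact Or.inl ⟨cellOf_lt hi, cellOf_cons_lt _ hi⟩
      · refine Or.inr (Or.inl ⟨cellOf_eq l, ?_⟩)
        rw [cellOf_cons_eq]; omega
      · exact Or.inr (Or.inr ⟨cellOf_gt hi, cellOf_ge (by simp; omega)⟩)
    · refine Or.inr (Or.inr ⟨h1, h2, ?_⟩)
      rcases lt_trichotomy i l'.length with hi | rfl | hi
      · exact Or.inl ⟨by rw [cellOf_cons_lt _ hi]; exact cellOf_lt hi, (cellOf_cons_lt _ hi).symm⟩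
      · refine Or.inr (Or.inl ⟨?_, cellOf_eq l'⟩)
        rw [cellOf_cons_eq]; omega
      · exact Or.inr (Or.inr ⟨cellOf_ge (by simp; omega), cellOf_gt hi⟩)
  · have := cellOf_pos (l := l) (Nat.zero_le _)
    omega

end Pool.Agent.Lib.MP_226ef1_lc.U.H65
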